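import Pool.Agent.Y262.QE.Stm

set_option autoImplicit false

open Filter Topology Module

namespace Pool.Agent.Y165.QE

open Pool.Agent.Y262.QE

section

variable {H : Type} [NormedAddCommGroup H] [InnerProductSpace ℝ H] [CompleteSpace H]

/-- the eigenspace -/
abbrev V (T : H →L[ℝ] H) (μ : ℝ) : Submodule ℝ H := End.eigenspace (T : H →ₗ[ℝ] H) μ

/-- the index set -/
abbrev Ix (T : H →L[ℝ] H) : Type := Σ τ : {τ : ℝ // 0 < τ}, Fin (finrank ℝ (V T τ.1))

lemma fd {T : H →L[ℝ] H} (hT : IsCompactOperator T) {μ : ℝ} (hμ : 0 < μ) :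
    FiniteDimensional ℝ (V T μ) :=
  ContinuousLinearMap.finite_dimensional_eigenspace hT μ hμ.ne'

/-- bases of the eigenspaces -/
noncomputable def bs {T : H →L[ℝ] H} (hT : IsCompactOperator T) (τ : {τ : ℝ // 0 < τ}) :
    OrthonormalBasis (Fin (finrank ℝ (V T τ.1))) ℝ (V T τ.1) :=
  haveI := fd hT τ.2
  stdOrthonormalBasis ℝ (V T τ.1)

/-- the eigenvectors -/
noncomputable def gv {T : H →L[ℝ] H} (hT : IsCompactOperator T) (i : Ix T) : H :=
  (bs hT i.1 i.2 : H)

lemma gv_orth {T : H →L[ℝ] H} (hT : IsCompactOperator T) (hS : (T : H →ₗ[ℝ] H).IsSymmetric) :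
    Orthonormal ℝ (gv hT) := by
  have h1 : OrthogonalFamily ℝ (fun τ : {τ : ℝ // 0 < τ} => V T τ.1)
      fun τ => (V T τ.1).subtypeₗᵢ :=
    hS.orthogonalFamily_eigenspaces.comp Subtype.coe_injective
  exact h1.orthonormal_sigma_orthonormal (fun τ => (bs hT τ).orthonormal)

lemma T_gv {T : H →L[ℝ] H} (hT : IsCompactOperator T) (i : Ix T) :
    T (gv hT i) = i.1.1 • gv hT i := by
  have h := (bs hT i.1 i.2).2
  rw [End.mem_eigenspace_iff] at h
  exact h

/-- a vector orthogonal to all eigenvectors with positive eigenvalue is in the kernel -/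
lemma ker_of {T : H →L[ℝ] H} (hT : IsCompactOperator T) (hS : (T : H →ₗ[ℝ] H).IsSymmetric)
    (hpos : ∀ v, 0 ≤ inner ℝ (T v) v) (u : H) (hu : ∀ i, inner ℝ (gv hT i) u = 0) : T u = 0 := by
  have hsym : ∀ x y : H, inner ℝ (T x) y = inner ℝ x (T y) := fun x y => hS x y
  have h1 : T u ∈ (⨆ μ, End.eigenspace (T : End ℝ H) μ)ᗮ := by
    rw [← Submodule.iInf_orthogonal, Submodule.mem_iInf]
    intro μ
    rw [Submodule.mem_orthogonal]
    intro w hw
    rw [End.mem_eigenspace_iff] at hw
    have hw' : T w = μ • w := hw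
    have h2 : inner ℝ w (T u) = μ * inner ℝ w u := by
      rw [← hsym, hw', inner_smul_left]
      rfl
    rcases lt_trichotomy μ 0 with hμ | hμ | hμ
    · have h3 := hpos w
      rw [hw', inner_smul_left] at h3
      have h4 : 0 ≤ μ * inner ℝ w w := h3
      have h5 : (0 : ℝ) ≤ inner ℝ w w := real_inner_self_nonneg
      have h6 : inner ℝ w w = (0 : ℝ) := by nlinarith
      have h7 : w = 0 := inner_self_eq_zero.1 h6
      rw [h7, inner_zero_left]
    · rw [h2, hμ, zero_mul]
    · have hw2 : w ∈ V T μ := by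
        rw [End.mem_eigenspace_iff]
        exact hw
      have h3 := (bs hT ⟨μ, hμ⟩).sum_repr ⟨w, hw2⟩
      have h4 : w = ∑ k, ((bs hT ⟨μ, hμ⟩).repr ⟨w, hw2⟩ k) • (bs hT ⟨μ, hμ⟩ k : H) := by
        have := congrArg (Subtype.val) h3
        rw [Submodule.coe_sum] at this
        exact this.symm
      have h5 : inner ℝ w u = (0 : ℝ) := by
        rw [h4, sum_inner]
        apply Finset.sum_eq_zero
        intro k _
        rw [inner_smul_left]
        have := hu ⟨⟨μ, hμ⟩, k⟩
        have h6 : inner ℝ (bs hT ⟨μ, hμ⟩ k : H) u = (0 : ℝ) := this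
        rw [h6, mul_zero]
      rw [h2, h5, mul_zero]
  rw [ContinuousLinearMap.orthogonalComplement_iSup_eigenspaces_eq_bot hT hS] at h1
  exact (Submodule.mem_bot ℝ).1 h1

/-- finitely many eigenvalues away from zero -/
lemma fin_ge {T : H →L[ℝ] H} (hT : IsCompactOperator T) (hS : (T : H →ₗ[ℝ] H).IsSymmetric)
    (δ : ℝ) (hδ : 0 < δ) : {i : Ix T | δ ≤ i.1.1}.Finite := by
  by_contra hinf
  have hinf' : {i : Ix T | δ ≤ i.1.1}.Infinite := hinf
  let φ := hinf'.natEmbedding
  have hK := hT.isCompact_closure_image_closedBall 1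
  have hmem : ∀ n, T (gv hT (φ n)) ∈ closure (T '' Metric.closedBall 0 1) := by
    intro n
    apply subset_closure
    refine ⟨_, ?_, rfl⟩
    rw [mem_closedBall_zero_iff, (gv_orth hT hS).1]
  obtain ⟨a, _, ψ, hψ, hlim⟩ := hK.tendsto_subseq hmem
  have hc := hlim.cauchySeq
  rw [Metric.cauchySeq_iff] at hc
  obtain ⟨N, hN⟩ := hc δ hδ
  have h1 := hN (N + 1) (by omega) N le_rfl
  rw [Function.comp_apply, Function.comp_apply, dist_eq_norm, T_gv, T_gv] at h1
  set i : Ix T := (φ (ψ (N + 1)) : Ix T) with hi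
  set j : Ix T := (φ (ψ N) : Ix T) with hj
  have hij : i ≠ j := by
    intro h
    have h2 : φ (ψ (N + 1)) = φ (ψ N) := Subtype.ext h
    have h3 := hψ.injective (φ.injective h2)
    omega
  have h0 : inner ℝ (gv hT i) (gv hT j) = (0 : ℝ) := (gv_orth hT hS).2 hij
  have h2 : ‖i.1.1 • gv hT i - j.1.1 • gv hT j‖ ^ 2 = i.1.1 ^ 2 + j.1.1 ^ 2 := by
    rw [@norm_sub_sq_real, norm_smul, norm_smul, (gv_orth hT hS).1, (gv_orth hT hS).1,
      inner_smul_left, inner_smul_right, h0]
    simp
  have hδi : δ ≤ i.1.1 := (φ (ψ (N + 1))).2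
  have h3 : ‖i.1.1 • gv hT i - j.1.1 • gv hT j‖ ^ 2 < δ ^ 2 :=
    pow_lt_pow_left₀ h1 (norm_nonneg _) two_ne_zero
  rw [h2] at h3
  nlinarith [sq_nonneg j.1.1]

/-- the expansion of `T v` -/
lemma has_sum {T : H →L[ℝ] H} (hT : IsCompactOperator T) (hS : (T : H →ₗ[ℝ] H).IsSymmetric)
    (hpos : ∀ v, 0 ≤ inner ℝ (T v) v) (v : H) :
    HasSum (fun i => (inner ℝ (gv hT i) v * i.1.1) • gv hT i) (T v) := by
  have ho := gv_orth hT hS
  have h1 : Summable fun i => (inner ℝ (gv hT i) v : ℝ) • gv hT i := by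
    have h2 := (ho.orthogonalFamily.summable_iff_norm_sq_summable
      (fun i => (inner ℝ (gv hT i) v : ℝ))).2 (Orthonormal.inner_products_summable v ho)
    exact h2
  obtain ⟨p, hp⟩ := h1
  have h3 : ∀ j, inner ℝ (gv hT j) (v - p) = (0 : ℝ) := by
    intro j
    have h4 := hp.mapL (innerSL ℝ (gv hT j))
    have h5 : HasSum (fun i => innerSL ℝ (gv hT j) ((inner ℝ (gv hT i) v : ℝ) • gv hT i))
        (inner ℝ (gv hT j) v) := by
      have h6 : inner ℝ (gv hT j) v = innerSL ℝ (gv hT j) ((inner ℝ (gv hT j) v : ℝ) • gv hT j) := by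
        rw [innerSL_apply_apply, inner_smul_right, real_inner_self_eq_norm_sq, ho.1]
        simp
      rw [h6]
      apply hasSum_single j
      intro i hi
      rw [innerSL_apply_apply, inner_smul_right, ho.2 (Ne.symm hi), mul_zero]
    have h7 := h4.unique h5
    rw [innerSL_apply_apply] at h7
    rw [inner_sub_right, h7, sub_self]
  have h8 := ker_of hT hS hpos _ h3
  rw [map_sub, sub_eq_zero] at h8
  rw [h8]
  have h9 := hp.mapL T
  convert h9 using 1
  funext i
  rw [map_smul, T_gv, smul_smul]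

lemma inf_ix {T : H →L[ℝ] H} (hT : IsCompactOperator T) (hS : (T : H →ₗ[ℝ] H).IsSymmetric)
    (hpos : ∀ v, 0 ≤ inner ℝ (T v) v)
    (he : ∃ e : ℕ → H, ∀ i j, inner ℝ (T (e i)) (e j) = if i = j then (1 : ℝ) else 0) :
    Infinite (Ix T) := by
  by_contra hfin
  rw [not_infinite_iff_finite] at hfin
  haveI := Fintype.ofFinite (Ix T)
  obtain ⟨e, he⟩ := he
  set S : Submodule ℝ H := Submodule.span ℝ (Set.range (gv hT)) with hSdef
  haveI : FiniteDimensional ℝ S := FiniteDimensional.span_of_finite ℝ (Set.finite_range _)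
  have hmem : ∀ v, T v ∈ S := by
    intro v
    have h1 := (has_sum hT hS hpos v).unique (hasSum_fintype _)
    rw [h1]
    apply Submodule.sum_mem
    intro i _
    exact Submodule.smul_mem _ _ (Submodule.subset_span ⟨i, rfl⟩)
  have hli : LinearIndependent ℝ (fun n : ℕ => T (e n)) := by
    rw [linearIndependent_iff']
    intro s c hc j hj
    have h1 : inner ℝ (∑ i ∈ s, c i • T (e i)) (e j) = (0 : ℝ) := by
      rw [hc, inner_zero_left]
    rw [sum_inner] at h1
    have h2 : ∀ i ∈ s, inner ℝ (c i • T (e i)) (e j) = if i = j then c i else (0 : ℝ) := by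
      intro i _
      rw [real_inner_smul_left, he]
      split_ifs
      · rw [mul_one]
      · rw [mul_zero]
    rw [Finset.sum_congr rfl h2, Finset.sum_ite_eq' s j, if_pos hj] at h1
    exact h1
  have hli2 : LinearIndependent ℝ (fun n : ℕ => (⟨T (e n), hmem _⟩ : S)) :=
    LinearIndependent.of_comp S.subtype hli
  have : Finite ℕ := hli2.finite
  exact not_finite ℕ

end

theorem diag (hEn : StEnum) : StDiag := by
  intro H _ _ _ T hT hS hpos he
  haveI := inf_ix hT hS hpos he
  obtain ⟨σ, hσ⟩ := hEn (Ix T) (fun i => 1 / i.1.1) (by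
    intro lam
    rcases le_or_gt lam 0 with h | h
    · have : {i : Ix T | 1 / i.1.1 ≤ lam} = ∅ := by
        rw [Set.eq_empty_iff_forall_notMem]
        intro i hi
        have h1 : 0 < 1 / i.1.1 := one_div_pos.2 i.1.2
        have h2 : 1 / i.1.1 ≤ lam := hi
        linarith
      rw [this]
      exact Set.finite_empty
    · refine (fin_ge hT hS (1 / lam) (by positivity)).subset ?_
      intro i hi
      have h2 : 1 / i.1.1 ≤ lam := hi
      have h3 := one_div_le_one_div_of_le (one_div_pos.2 i.1.2) h2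
      rw [one_div_one_div] at h3
      exact h3)
  refine ⟨fun n => gv hT (σ n), fun n => (σ n).1.1, ?_, ?_, ?_, ?_, ?_, ?_⟩
  · exact (gv_orth hT hS).comp _ σ.injective
  · intro n
    exact (σ n).1.2
  · intro n m hnm
    have h1 := hσ hnm
    simp only at h1
    have h2 := one_div_le_one_div_of_le (one_div_pos.2 (σ n).1.2) h1
    rw [one_div_one_div, one_div_one_div] at h2
    exact h2
  · rw [Metric.tendsto_nhds]
    intro ε hε
    rw [← Nat.cofinite_eq_atTop, eventually_cofinite]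
    have h1 := (fin_ge hT hS ε hε).preimage (f := σ) σ.injective.injOn
    refine h1.subset ?_
    intro n hn
    have h2 : ¬ dist (σ n).1.1 0 < ε := hn
    rw [Real.dist_0_eq_abs, abs_of_pos (σ n).1.2, not_lt] at h2
    exact h2
  · intro n
    exact T_gv hT (σ n)
  · intro v
    have h1 := (σ.hasSum_iff).2 (has_sum hT hS hpos v)
    have h2 := h1.mapL (innerSL ℝ v)
    rw [innerSL_apply_apply, real_inner_comm] at h2
    have e : (fun j => (σ j).1.1 * (inner ℝ v (gv hT (σ j)) : ℝ) ^ 2) = fun b => innerSL ℝ v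
        (((fun i => (inner ℝ (gv hT i) v * i.1.1 : ℝ) • gv hT i) ∘ σ) b) := by
      funext n
      simp only [Function.comp_apply]
      rw [innerSL_apply_apply, inner_smul_right, real_inner_comm v]
      ring
    rw [e]
    exact h2

end Pool.Agent.Y165.QE
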